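import Pool.Agent.H38.PWS.Stmts
import Pool.Agent.H38.MKP.Final

/-!
# Row FIN of board pws
-/

set_option autoImplicit false

namespace Pool.H64.PWS

open ArithmeticFunction Finset Pool.MKP Pool.PWS

/-- powers of `1 + log N` are at most a constant times a small power of `N` -/
lemma log_pow_le (k : ℕ) (η : ℝ) (hη : 0 < η) : ∃ C : ℝ, 0 < C ∧ ∀ N : ℕ, 1 ≤ N →
    (1 + Real.log N) ^ k ≤ C * (N : ℝ) ^ η := by
  set δ : ℝ := η / (k + 1) with hδ
  have hδ0 : 0 < δ := by positivity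
  refine ⟨(1 + 1 / δ) ^ k, by positivity, fun N hN => ?_⟩
  have hN' : (1 : ℝ) ≤ N := by exact_mod_cast hN
  have hlog : 0 ≤ Real.log N := Real.log_nonneg hN'
  have h1 : Real.log N ≤ (N : ℝ) ^ δ / δ := Real.log_le_rpow_div (by linarith) hδ0
  have h2 : (1 : ℝ) ≤ (N : ℝ) ^ δ := Real.one_le_rpow hN' hδ0.le
  have h3 : 1 + Real.log N ≤ (1 + 1 / δ) * (N : ℝ) ^ δ := by
    have : (1 + 1 / δ) * (N : ℝ) ^ δ = (N : ℝ) ^ δ + (N : ℝ) ^ δ / δ := by ring
    rw [this]; linarith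
  calc (1 + Real.log N) ^ k ≤ ((1 + 1 / δ) * (N : ℝ) ^ δ) ^ k :=
        pow_le_pow_left₀ (by linarith) h3 k
    _ = (1 + 1 / δ) ^ k * (N : ℝ) ^ (δ * k) := by
        rw [mul_pow, Real.rpow_mul (by linarith), Real.rpow_natCast]
    _ ≤ (1 + 1 / δ) ^ k * (N : ℝ) ^ η := by
        apply mul_le_mul_of_nonneg_left _ (by positivity)
        apply Real.rpow_le_rpow_of_exponent_le hN'
        rw [hδ, div_mul_eq_mul_div, div_le_iff₀ (by positivity)]
        nlinarith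

/-- the harmonic sum over all `t`, `g` -/
lemma harm (m X : ℕ) (M : ℝ) :
    ∑ i ∈ Icc 1 X ×ˢ Fintype.piFinset (fun _ : Fin m => Icc 1 X),
      M * (1 / (i.1 : ℝ) * ∏ j, 1 / (i.2 j : ℝ)) = M * (∑ k ∈ Icc 1 X, (1 : ℝ) / k) ^ (m + 1) := by
  rw [← Finset.mul_sum, Finset.sum_product]
  congr 1
  simp only
  have h1 : ∑ g ∈ Fintype.piFinset (fun _ : Fin m => Icc 1 X), ∏ j, (1 : ℝ) / (g j : ℝ)
      = (∑ k ∈ Icc 1 X, (1 : ℝ) / k) ^ m := by
    have := Finset.prod_univ_sum (fun _ : Fin m => Icc 1 X) (fun _ (k : ℕ) => (1 : ℝ) / (k : ℝ))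
    rw [← this, Finset.prod_const, Finset.card_univ, Fintype.card_fin]
  have h2 : ∀ t ∈ Icc 1 X, ∑ g ∈ Fintype.piFinset (fun _ : Fin m => Icc 1 X),
      (1 / (t : ℝ) * ∏ j, 1 / (g j : ℝ)) = 1 / (t : ℝ) * (∑ k ∈ Icc 1 X, (1 : ℝ) / k) ^ m := by
    intro t _
    rw [← Finset.mul_sum, h1]
  rw [Finset.sum_congr rfl h2, ← Finset.sum_mul, pow_succ, mul_comm]

/-- counting the pairs `t`, `g` with bounded product -/
lemma card_pairs (m X : ℕ) (M : ℝ) (T : Finset (ℕ × (Fin m → ℕ)))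
    (hT : T ⊆ Icc 1 X ×ˢ Fintype.piFinset (fun _ : Fin m => Icc 1 X)) (hM : 0 ≤ M)
    (h : ∀ i ∈ T, (i.1 : ℝ) * ∏ j, (i.2 j : ℝ) ≤ M) :
    (T.card : ℝ) ≤ M * (∑ k ∈ Icc 1 X, (1 : ℝ) / k) ^ (m + 1) := by
  rw [← harm]
  have h1 : (T.card : ℝ) = ∑ i ∈ T, (1 : ℝ) := by simp
  rw [h1]
  refine (Finset.sum_le_sum (g := fun i : ℕ × (Fin m → ℕ) =>
    M * (1 / (i.1 : ℝ) * ∏ j, 1 / (i.2 j : ℝ))) ?_).trans ?_
  · intro i hi
    have h2 := h i hi
    have h3 := hT hi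
    rw [Finset.mem_product, Finset.mem_Icc, Fintype.mem_piFinset] at h3
    have h4 : (0 : ℝ) < i.1 := by exact_mod_cast h3.1.1
    have h5 : (0 : ℝ) < ∏ j, (i.2 j : ℝ) := Finset.prod_pos fun j _ => by
      have := h3.2 j
      rw [Finset.mem_Icc] at this
      exact_mod_cast this.1
    have h6 : 1 / (i.1 : ℝ) * ∏ j, 1 / (i.2 j : ℝ) = 1 / ((i.1 : ℝ) * ∏ j, (i.2 j : ℝ)) := by
      rw [Finset.prod_div_distrib, Finset.prod_const_one, div_mul_div_comm, one_mul]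
    rw [h6, mul_one_div, le_div_iff₀ (by positivity), one_mul]
    exact h2
  · apply Finset.sum_le_sum_of_subset_of_nonneg hT
    intro i _ _
    apply mul_nonneg hM
    apply mul_nonneg (by positivity)
    exact Finset.prod_nonneg fun j _ => by positivity

lemma Gd_congr {m t : ℕ} {g g' : ℕ → ℕ} (h : ∀ i < m, g i = g' i) : Gd m t g = Gd m t g' := by
  unfold Gd
  congr 1
  apply Finset.biUnion_congr rfl
  intro i hi
  rw [h i (Finset.mem_range.1 hi)]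

/-- extension of a function on `Fin m` -/
def extf (m : ℕ) (g : Fin m → ℕ) (i : ℕ) : ℕ := if h : i < m then g ⟨i, h⟩ else 1

end Pool.H64.PWS

namespace Pool.PWS

open ArithmeticFunction Finset Pool.MKP Pool.H64.PWS

theorem FIN (h1 : LLBStmt) (h2 : GENStmt) (h3 : CNTStmt) : FINStmt := by
  intro m ε hm hε
  obtain ⟨C1, hC1, hcnt⟩ := h3 m (ε / 2) hm (by linarith)
  obtain ⟨C2, hC2, hlogp⟩ := log_pow_le (m * m + (m + 1)) (ε / 2) (by linarith)
  set K : ℝ := 6 * (2 ^ (m + 2)) ^ (m * m) * (2 ^ (m + 1)) ^ (m + 1) with hK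
  have hK0 : 0 < K := by positivity
  refine ⟨C1 * (K * C2), by positivity, fun N D hD => ?_⟩
  rcases Nat.eq_zero_or_pos N with hN | hN
  · subst hN
    have : ((0 : ℕ) : ℝ) ^ (1 + ε) = 0 := by
      rw [Nat.cast_zero]; exact Real.zero_rpow (by linarith)
    rw [this]; simp
  have hN' : (1 : ℝ) ≤ N := by exact_mod_cast hN
  have hN0 : (0 : ℝ) < N := by linarith
  have hlog : 0 ≤ Real.log N := Real.log_nonneg hN'
  have hD' : (0 : ℝ) < D := by exact_mod_cast hD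
  obtain ⟨hL1, hL2⟩ := h1 m N hN
  have hL0 : 1 ≤ LL m N := by unfold LL; omega
  set L : ℕ := LL m N with hLdef
  set X : ℕ := N ^ 2 ^ m with hX
  have hNX : N ≤ X := Nat.le_self_pow (by positivity) N
  set S : Finset ℕ := (Icc 1 N).filter fun n => D ≤ Nat.gcd n (it m n) with hS
  set T : Finset (ℕ × (Fin m → ℕ)) :=
    (Icc 1 X ×ˢ Fintype.piFinset (fun _ : Fin m => Icc 1 X)).filter
      (fun i => (i.1 * ∏ j, i.2 j) ^ 2 * D ≤ 6 * L ^ (m * m) * N ^ 2) with hT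
  -- every number is in one of the classes
  have hcover : ∀ n ∈ S, ∃ i ∈ T, n ∈ Cls m N (Gd m i.1 (extf m i.2)) := by
    intro n hn
    rw [hS, Finset.mem_filter, Finset.mem_Icc] at hn
    obtain ⟨⟨hn1, hn2⟩, hgcd⟩ := hn
    have hdiv : ∀ i ≤ m, ∀ k : ℕ, k ∣ it i n → sigma 1 k ≤ L * k := by
      intro i hi k hk
      have hpos : 0 < it i n := it_pos hn1 i
      refine (hL1 k (Nat.pos_of_dvd_of_pos hk hpos) ?_).1
      calc k ≤ it i n := Nat.le_of_dvd hpos hk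
        _ ≤ N ^ 2 ^ i := it_le hn2 i
        _ ≤ N ^ 2 ^ m := Nat.pow_le_pow_right hN (Nat.pow_le_pow_right (by norm_num) hi)
    obtain ⟨t, u, g, htu, hgu, hg, hprod, hamb, hrch⟩ := h2 m n L hm hn1 hL0 hdiv
    have ht0 : 1 ≤ t := by
      rcases Nat.eq_zero_or_pos t with h | h
      · rw [h, zero_mul] at htu; omega
      · exact h
    have hu0 : 1 ≤ u := by
      rcases Nat.eq_zero_or_pos u with h | h
      · rw [h, mul_zero] at htu; omega
      · exact h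
    have htn : t ≤ n := by rw [← htu]; exact Nat.le_mul_of_pos_right t hu0
    have hext : ∀ i < m, extf m (fun j : Fin m => g j) i = g i := by
      intro i hi
      unfold extf
      rw [dif_pos hi]
    have hGd : Gd m t (extf m (fun j : Fin m => g j)) = Gd m t g := Gd_congr hext
    have hpr : ∏ j : Fin m, g j = ∏ i ∈ range m, g i := (Finset.prod_range g).symm
    refine ⟨(t, fun j : Fin m => g j), ?_, ?_⟩
    · rw [hT, Finset.mem_filter, Finset.mem_product, Finset.mem_Icc, Fintype.mem_piFinset]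
      refine ⟨⟨⟨ht0, by simp only; omega⟩, fun j => ?_⟩, ?_⟩
      · rw [Finset.mem_Icc]
        refine ⟨(hg j j.2).1, (hg j j.2).2.trans ((it_le hn2 j).trans ?_)⟩
        exact Nat.pow_le_pow_right hN (Nat.pow_le_pow_right (by norm_num) j.2.le)
      · simp only
        rw [hpr]
        calc (t * ∏ i ∈ range m, g i) ^ 2 * D
            = t ^ 2 * (∏ i ∈ range m, g i) ^ 2 * D := by ring
          _ ≤ t ^ 2 * (6 * L ^ (m * m) * u) * u := by
              apply Nat.mul_le_mul (Nat.mul_le_mul_left _ hprod) (hgcd.trans hgu)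
          _ = 6 * L ^ (m * m) * (t * u) ^ 2 := by ring
          _ ≤ 6 * L ^ (m * m) * N ^ 2 := by
              rw [htu]
              exact Nat.mul_le_mul_left _ (Nat.pow_le_pow_left hn2 2)
    · simp only
      rw [hGd]
      unfold Cls
      simp only [Finset.mem_filter, Finset.mem_Icc]
      exact ⟨⟨hn1, hn2⟩, hamb, hrch⟩
  have hcard := card_le_sum S T (fun i => Cls m N (Gd m i.1 (extf m i.2))) hcover
  have hcard2 : (S.card : ℝ) ≤ T.card * (C1 * (N : ℝ) ^ (ε / 2)) := by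
    refine hcard.trans ?_
    refine (Finset.sum_le_card_nsmul T _ (C1 * (N : ℝ) ^ (ε / 2)) ?_).trans (le_of_eq ?_)
    · intro i _
      exact hcnt N _ hN
    · rw [nsmul_eq_mul]
  -- number of pairs
  set R : ℝ := Real.sqrt (6 * (L : ℝ) ^ (m * m)) with hR
  set M : ℝ := R * N / Real.sqrt D with hM
  have hsD : 0 < Real.sqrt D := Real.sqrt_pos.2 hD'
  have hM0 : 0 ≤ M := by
    rw [hM, hR]; positivity
  have hTc : (T.card : ℝ) ≤ M * (∑ k ∈ Icc 1 X, (1 : ℝ) / k) ^ (m + 1) := by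
    apply card_pairs m X M T (Finset.filter_subset _ _) hM0
    intro i hi
    rw [hT, Finset.mem_filter] at hi
    have h4 := hi.2
    have h5 : (((i.1 : ℝ) * ∏ j, (i.2 j : ℝ)) ^ 2) * D ≤ 6 * (L : ℝ) ^ (m * m) * (N : ℝ) ^ 2 := by
      exact_mod_cast h4
    rw [hM, le_div_iff₀ hsD]
    have h6 : 0 ≤ (i.1 : ℝ) * ∏ j, (i.2 j : ℝ) :=
      mul_nonneg (by positivity) (Finset.prod_nonneg fun j _ => by positivity)
    have h7 : 0 ≤ R * N := by rw [hR]; positivity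
    have h8 : ((i.1 : ℝ) * (∏ j, (i.2 j : ℝ)) * Real.sqrt D) ^ 2
        = ((i.1 : ℝ) * ∏ j, (i.2 j : ℝ)) ^ 2 * D := by
      rw [mul_pow _ (Real.sqrt D), Real.sq_sqrt hD'.le]
    have h9 : (R * N) ^ 2 = 6 * (L : ℝ) ^ (m * m) * (N : ℝ) ^ 2 := by
      rw [mul_pow, hR, Real.sq_sqrt (by positivity)]
    apply (pow_le_pow_iff_left₀ (by positivity) h7 two_ne_zero).1
    rw [h8, h9]
    exact h5
  have hW : ∑ k ∈ Icc 1 X, (1 : ℝ) / k ≤ 2 ^ (m + 1) * (1 + Real.log N) := by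
    refine le_trans ?_ (Wbound N m hN)
    apply Finset.sum_le_sum_of_subset_of_nonneg
    · apply Finset.Icc_subset_Icc_right; omega
    · intro k _ _; positivity
  have hW0 : 0 ≤ ∑ k ∈ Icc 1 X, (1 : ℝ) / k := Finset.sum_nonneg fun k _ => by positivity
  have hR1 : R ≤ 6 * (2 ^ (m + 2)) ^ (m * m) * (1 + Real.log N) ^ (m * m) := by
    have hL1' : (1 : ℝ) ≤ L := by exact_mod_cast hL0
    have h4 : (1 : ℝ) ≤ (L : ℝ) ^ (m * m) := one_le_pow₀ hL1'
    have h5 : R ≤ 6 * (L : ℝ) ^ (m * m) := by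
      rw [hR, Real.sqrt_le_left (by positivity)]
      nlinarith
    have h6 : (L : ℝ) ^ (m * m) ≤ (2 ^ (m + 2) * (1 + Real.log N)) ^ (m * m) :=
      pow_le_pow_left₀ (by positivity) hL2 _
    calc R ≤ 6 * (L : ℝ) ^ (m * m) := h5
      _ ≤ 6 * (2 ^ (m + 2) * (1 + Real.log N)) ^ (m * m) := by linarith
      _ = 6 * (2 ^ (m + 2)) ^ (m * m) * (1 + Real.log N) ^ (m * m) := by rw [mul_pow]; ring
  have hRH : R * (∑ k ∈ Icc 1 X, (1 : ℝ) / k) ^ (m + 1) ≤ K * (C2 * (N : ℝ) ^ (ε / 2)) := by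
    calc R * (∑ k ∈ Icc 1 X, (1 : ℝ) / k) ^ (m + 1)
        ≤ (6 * (2 ^ (m + 2)) ^ (m * m) * (1 + Real.log N) ^ (m * m)) *
            (2 ^ (m + 1) * (1 + Real.log N)) ^ (m + 1) :=
          mul_le_mul hR1 (pow_le_pow_left₀ hW0 hW _) (by positivity) (by positivity)
      _ = K * (1 + Real.log N) ^ (m * m + (m + 1)) := by
          rw [hK, mul_pow, pow_add (1 + Real.log N)]; ring
      _ ≤ K * (C2 * (N : ℝ) ^ (ε / 2)) :=
          mul_le_mul_of_nonneg_left (hlogp N hN) hK0.le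
  have hpow : (N : ℝ) ^ (1 + ε) = N * (N : ℝ) ^ (ε / 2) * (N : ℝ) ^ (ε / 2) := by
    rw [mul_assoc, ← Real.rpow_add hN0, add_halves, Real.rpow_add hN0, Real.rpow_one]
  calc (S.card : ℝ) ≤ T.card * (C1 * (N : ℝ) ^ (ε / 2)) := hcard2
    _ ≤ (M * (∑ k ∈ Icc 1 X, (1 : ℝ) / k) ^ (m + 1)) * (C1 * (N : ℝ) ^ (ε / 2)) :=
        mul_le_mul_of_nonneg_right hTc (by positivity)
    _ = (R * (∑ k ∈ Icc 1 X, (1 : ℝ) / k) ^ (m + 1)) * (N * (C1 * (N : ℝ) ^ (ε / 2)) /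
          Real.sqrt D) := by
        rw [hM]; ring
    _ ≤ (K * (C2 * (N : ℝ) ^ (ε / 2))) * (N * (C1 * (N : ℝ) ^ (ε / 2)) / Real.sqrt D) :=
        mul_le_mul_of_nonneg_right hRH (by positivity)
    _ = C1 * (K * C2) * (N : ℝ) ^ (1 + ε) / Real.sqrt D := by
        rw [hpow]; ring

end Pool.PWS
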